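import Mathlib
import Pool.Agent.H17.Telg

set_option autoImplicit false

namespace Pool.Agent.Results.MP_c6d0b8_gt.Ex
open Set Filter Topology TopologicalSpace

/-- The moves made in rounds `0, …, n - 1`. -/
def prev {α : Type} (a : ℕ → α) (n : ℕ) : List α := List.ofFn fun i : Fin n => a i

/-- One has a winning strategy in the compact-open `k`-cover game. -/
def OneWinsK (X : Type) [TopologicalSpace X] : Prop :=
  ∃ τ : List (Set X) → Set X, (∀ l, IsCompact (τ l) ∧ (τ l).Nonempty) ∧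
    ∀ U : ℕ → Set X, (∀ n, IsOpen (U n) ∧ τ (prev U n) ⊆ U n) →
      ∀ K : Set X, IsCompact K → ∃ n, K ⊆ U n

/-- One has a winning predetermined strategy in that game. -/
def OnePreK (X : Type) [TopologicalSpace X] : Prop :=
  ∃ τ : ℕ → Set X, (∀ n, IsCompact (τ n) ∧ (τ n).Nonempty) ∧
    ∀ U : ℕ → Set X, (∀ n, IsOpen (U n) ∧ τ n ⊆ U n) →
      ∀ K : Set X, IsCompact K → ∃ n, K ⊆ U n

/-- One has a winning strategy in the finite-open game. -/
def OneWinsFin (X : Type) [TopologicalSpace X] : Prop :=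
  ∃ τ : List (Set X) → Set X, (∀ l, (τ l).Finite) ∧
    ∀ U : ℕ → Set X, (∀ n, IsOpen (U n) ∧ τ (prev U n) ⊆ U n) → ⋃ n, U n = univ

def L : Type := Option ℝ

instance : TopologicalSpace L where
  IsOpen U := (none : Option ℝ) ∈ U → Uᶜ.Countable
  isOpen_univ := fun _ => by simp
  isOpen_inter := fun s t hs ht h => by
    rw [compl_inter]
    exact (hs h.1).union (ht h.2)
  isOpen_sUnion := fun S hS ⟨t, ht, h⟩ =>
    (hS t ht h).mono (compl_subset_compl.2 (subset_sUnion_of_mem ht))

def o : L := (none : Option ℝ)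

theorem open_iff (U : Set L) : IsOpen U ↔ (o ∈ U → Uᶜ.Countable) := Iff.rfl

theorem closed_c (D : Set L) (h : D.Countable) : IsClosed D :=
  ⟨fun _ => by rwa [compl_compl]⟩

instance : T1Space L := ⟨fun x => closed_c _ (countable_singleton x)⟩

instance : RegularSpace L := RegularSpace.of_exists_mem_nhds_isClosed_subset fun x s hs => by
  obtain ⟨U, hUs, hU, hx⟩ := mem_nhds_iff.1 hs
  by_cases h : x = o
  · exact ⟨U, hU.mem_nhds hx, ⟨fun h' => (h' (show o ∈ U from h ▸ hx)).elim⟩, hUs⟩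
  · refine ⟨{x}, IsOpen.mem_nhds ((open_iff _).2 fun h' => (h h'.symm).elim) rfl,
      isClosed_singleton, singleton_subset_iff.2 (hUs hx)⟩

instance : Uncountable L := inferInstanceAs (Uncountable (Option ℝ))

abbrev Y : Type := L × (ℕ → Bool)

theorem finK {K : Set Y} (hK : IsCompact K) : (Prod.fst '' K).Finite :=
  Pool.Agent.H17.Telg.fin_of_compact closed_c (hK.image continuous_fst)

theorem result : ∃ (X : Type) (_ : TopologicalSpace X), T3Space X ∧
    OneWinsK X ∧ ¬ OneWinsFin X ∧ ¬ OnePreK X := by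
  classical
  refine ⟨Y, inferInstance, inferInstance, ?_, ?_, ?_⟩
  · have h1 : ∀ U : Set Y, ∃ e : ℕ → L, IsOpen U → ({o} : Set L) ×ˢ univ ⊆ U →
        ∀ x, ¬ ({x} : Set L) ×ˢ univ ⊆ U → x ∈ range e := fun U => by
      by_cases h : IsOpen U ∧ ({o} : Set L) ×ˢ univ ⊆ U
      · obtain ⟨u, v, hu, -, h2, h3, h4⟩ :=
          generalized_tube_lemma isCompact_singleton isCompact_univ h.1 h.2
        obtain ⟨e, he⟩ := ((hu (h2 rfl)).insert o).exists_eq_range (insert_nonempty _ _)
        refine ⟨e, fun _ _ x hx => he.le (Or.inr fun hx' => hx ?_)⟩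
        exact (prod_mono (singleton_subset_iff.2 hx') h3).trans h4
      · exact ⟨fun _ => o, fun a b => (h ⟨a, b⟩).elim⟩
    choose e he using h1
    refine ⟨fun l => insert o (⋃ U ∈ {U | U ∈ l}, e U '' Iic l.length) ×ˢ univ, fun l =>
      ⟨(((List.finite_toSet l).biUnion fun U _ => (finite_Iic _).image _).insert o).isCompact.prod
        isCompact_univ, ⟨(o, default), Or.inl rfl, trivial⟩⟩, fun U hU K hK => ?_⟩
    have h2 : ∀ x, ∀ᶠ n in atTop, ({x} : Set L) ×ˢ univ ⊆ U n := fun x => by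
      by_cases h : ∀ n, ({x} : Set L) ×ˢ univ ⊆ U n
      · exact Eventually.of_forall h
      · push Not at h
        obtain ⟨m, hm⟩ := h
        obtain ⟨k, hk⟩ := he (U m) (hU m).1 ((prod_mono (singleton_subset_iff.2 (mem_insert o _))
          subset_rfl).trans (hU m).2) x hm
        filter_upwards [eventually_gt_atTop m, eventually_ge_atTop k] with n h1 h2
        refine (prod_mono (singleton_subset_iff.2 (mem_insert_of_mem o ?_)) subset_rfl).trans (hU n).2
        refine mem_biUnion (x := U m) (List.mem_ofFn.2 ⟨⟨m, h1⟩, rfl⟩) ⟨k, ?_, hk⟩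
        simpa [prev] using h2
    obtain ⟨n, hn⟩ := ((eventually_all_finite (finK hK)).2 fun x _ => h2 x).exists
    exact ⟨n, fun z hz => hn _ ⟨z, hz, rfl⟩ ⟨rfl, trivial⟩⟩
  · rintro ⟨τ, h1, h2⟩
    have h3 : ∀ (F : Set Y) (V : Set (ℕ → Bool)), ∃ V', F.Finite → IsClopen V → V.Nonempty →
        IsClopen V' ∧ V'.Nonempty ∧ V' ⊆ V ∧ Disjoint (Prod.snd '' F) V' := fun F V => by
      by_cases h : F.Finite ∧ IsClopen V ∧ V.Nonempty
      · have ho : IsOpen (V \ Prod.snd '' F) := h.2.1.2.sdiff (h.1.image _).isClosed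
        obtain ⟨x, hx⟩ := h.2.2
        have : (𝓝[≠] x).NeBot := by
          refine mem_closure_iff_nhdsWithin_neBot.1 (mem_closure_of_tendsto (b := atTop)
            (f := fun n : ℕ => Function.update x n (!x n)) (tendsto_pi_nhds.2 fun i => ?_)
            (Eventually.of_forall fun n h => by simpa using congrFun h n))
          refine tendsto_const_nhds.congr' ?_
          filter_upwards [eventually_gt_atTop i] with n hn
          rw [Function.update_of_ne hn.ne]
        obtain ⟨y, hy⟩ := ((infinite_of_mem_nhds x (h.2.1.2.mem_nhds hx)).sdiff (h.1.image Prod.snd)).nonempty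
        obtain ⟨V', hV, hy', hs⟩ := compact_exists_isClopen_in_isOpen ho hy
        exact ⟨V', fun _ _ _ => ⟨hV, ⟨y, hy'⟩, hs.trans sdiff_subset,
          Set.disjoint_left.2 fun z hz hz' => (hs hz').2 hz⟩⟩
      · exact ⟨V, fun a b c => (h ⟨a, b, c⟩).elim⟩
    choose s hs using h3
    obtain ⟨V, hV⟩ := Pool.Agent.H17.W1.rec_seq (α := Set (ℕ → Bool))
      (fun V n => s (τ (prev (fun i => Prod.snd ⁻¹' (V i)ᶜ) n)) (⋂ i < n, V i)) (fun f g n h => by
        congr 1
        · congr 1
          unfold prev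
          congr 1
          funext i
          simp only [h i i.2]
        · exact iInter₂_congr h)
    have h4 : ∀ n, IsClopen (⋂ i < n, V i) ∧ (⋂ i < n, V i).Nonempty := by
      intro n
      induction n with
      | zero => simpa using isClopen_univ
      | succ n ih =>
        obtain ⟨a, b, c, -⟩ := hs _ _ (h1 (prev (fun i => Prod.snd ⁻¹' (V i)ᶜ) n)) ih.1 ih.2
        rw [← hV n] at a b c
        rw [biInter_lt_succ, inter_eq_right.2 c]
        exact ⟨a, b⟩
    have h5 := fun n => hs _ _ (h1 (prev (fun i => Prod.snd ⁻¹' (V i)ᶜ) n)) (h4 n).1 (h4 n).2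
    simp only [← hV] at h5
    obtain ⟨x, hx⟩ := IsCompact.nonempty_iInter_of_sequence_nonempty_isCompact_isClosed V
      (fun n => (h5 (n + 1)).2.2.1.trans (biInter_subset_of_mem (Nat.lt_succ_self n)))
      (fun n => (h5 n).2.1) (h5 0).1.1.isCompact (fun n => (h5 n).1.1)
    obtain ⟨n, hn⟩ := mem_iUnion.1 ((h2 (fun i => Prod.snd ⁻¹' (V i)ᶜ) fun n =>
      ⟨(h5 n).1.1.isOpen_compl.preimage continuous_snd, fun z hz =>
        Set.disjoint_left.1 (h5 n).2.2.2 ⟨z, hz, rfl⟩⟩).ge (mem_univ (o, x)))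
    exact hn (mem_iInter.1 hx n)
  · rintro ⟨τ, h1, h2⟩
    obtain ⟨x, hx⟩ : (⋃ n, Prod.fst '' τ n)ᶜ.Nonempty := nonempty_compl.2 fun h =>
      not_countable_univ (h ▸ countable_iUnion fun n => (finK (h1 n).1).countable)
    obtain ⟨n, hn⟩ := h2 (fun _ => Prod.fst ⁻¹' {x}ᶜ) (fun n =>
      ⟨isOpen_compl_singleton.preimage continuous_fst, fun z hz h =>
        hx (mem_iUnion.2 ⟨n, z, hz, h⟩)⟩) {(x, default)} isCompact_singleton
    exact hn rfl rfl

end Pool.Agent.Results.MP_c6d0b8_gt.Ex
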